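import Mathlib

/-!
Nonexistence of smooth decaying self-similar profiles for the focusing wave equation
`φ_tt - Δ φ = |φ|^(p-1) φ` in three space dimensions, for every real `3 < p < 5`.

Write `a = 2/(p-1)`, so `1/2 < a < 1`, and `c^(p-1) = a(1+a)` for the constant solution `c`.

* Outside the light cone (`y > 1`) decay forces `|Φ 1| < c` (maximum principle for `|Φ 1| > c`,
  uniqueness at the singular point `y = 1` for `|Φ 1| = c`).
* Inside, `Z = y^(2μ) (1-y^2)^(a-μ) Ξ` with `μ = 1/(1+2a)` and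
  `Ξ = -(1/2) y^2 (1-y^2) Φ'^2 - y (1-μ-a y^2) Φ Φ' + (a^2/2) y^2 Φ^2 - a/(2(1+a)) y^2 |Φ|^(p+1)`
  satisfies `Z' = (1-μ)(1-2μ) y^(2μ) (1-y^2)^(a-μ-1) Φ Φ'` and vanishes at `0` and at `1`;
  this excludes `0 < |Φ 1| < c`.
* `Φ 1 = 0` is excluded by monotonicity of an energy.

All lemmas are stated for a nonlinearity `A(Φ) Φ`, where `A x = |x|^(p-1)` or (for `p = 4`)
`A x = x^3`; in the second case `Φ 1 < 0` is excluded by the maximum principle inside the cone.
-/

set_option autoImplicit false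

namespace Pool.Agent.Results.MP_a45a4d_an.NoDecayingProfile

theorem key_identity (a y G D S A μ q : ℝ) (ha : 1/2 < a) (hμ : μ = 1/(1+2*a)) (hq : q = 2/a)
    (hy0 : 0 < y) (hy1 : y < 1)
    (hode : (1 - y^2) * S + (2 / y - 2*(1+a)*y) * D - a*(1+a)*G + A*G = 0) :
    (2*μ/y - 2*(a-μ)*y/(1-y^2)) *
      (-(1/2)*y^2*(1-y^2)*D^2 - y*(1-μ-a*y^2)*G*D + (a^2/2)*y^2*G^2 - (a/(2*(1+a)))*y^2*(A*G^2))
     + (-y*(1-y^2)*D^2 + y^3*D^2 - y^2*(1-y^2)*D*S - (1-μ-3*a*y^2)*G*D - y*(1-μ-a*y^2)*D^2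
        - y*(1-μ-a*y^2)*G*S + a^2*y*G^2 + a^2*y^2*G*D
        - (a/(2*(1+a)))*(2*y*(A*G^2) + y^2*((q+2)*A*G*D)))
     = (1-μ)*(1-2*μ)*G*D/(1-y^2) := by
  have h1 : (1 - y^2) ≠ 0 := by nlinarith
  have h2 : y ≠ 0 := hy0.ne'
  have h3 : (1 + 2*a) ≠ 0 := by linarith
  have h4 : a ≠ 0 := by linarith
  have h5 : 1 + a ≠ 0 := by linarith
  have hS : S = (-(2 / y - 2*(1+a)*y) * D + a*(1+a)*G - A*G)/(1-y^2) := by
    field_simp
    field_simp at hode
    linarith
  subst hμ hq
  rw [hS]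
  field_simp
  ring

theorem energy_identity (a y G D S A q : ℝ) (ha : 1/2 < a) (hq : q = 2/a)
    (hy0 : 0 < y) (hy1 : y < 1)
    (hode : (1 - y^2) * S + (2 / y - 2*(1+a)*y) * D - a*(1+a)*G + A*G = 0) :
    (2*a/y) * ((1/2)*(1-y^2)*(a*G+y*D)^2 + (a/(2*(1+a)))*y^2*(A*G^2) - (1/2)*a*(1-a)*G^2)
     + (-y*(a*G+y*D)^2 + (1-y^2)*(a*G+y*D)*((1+a)*D+y*S)
        + (a/(2*(1+a)))*(2*y*(A*G^2) + y^2*((q+2)*A*G*D)) - a*(1-a)*G*D)
     = (2*a-1)*(a*G+y*D)^2/y := by
  have h1 : (1 - y^2) ≠ 0 := by nlinarith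
  have h2 : y ≠ 0 := hy0.ne'
  have h4 : a ≠ 0 := by linarith
  have h5 : 1 + a ≠ 0 := by linarith
  have hS : S = (-(2 / y - 2*(1+a)*y) * D + a*(1+a)*G - A*G)/(1-y^2) := by
    field_simp
    field_simp at hode
    linarith
  subst hq
  rw [hS]
  field_simp
  ring

theorem abs_rpow_add_two (x q : ℝ) (hq : 0 < q) : |x|^(q+2) = |x|^q * x^2 := by
  rw [Real.rpow_add_of_nonneg (abs_nonneg x) hq.le (by norm_num)]
  congr 1
  norm_num

/-- Properties of the factor `A` of the nonlinearity `A(x) x` which are used below. -/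
structure Nice (A : ℝ → ℝ) (q : ℝ) : Prop where
  pos : ∀ x, 0 < x → A x = x^q
  der : ∀ x, HasDerivAt (fun x => A x * x^2) ((q+2) * A x * x) x
  lip : ∀ M, 0 ≤ M → ∃ L, 0 ≤ L ∧ ∀ x y, |x| ≤ M → |y| ≤ M → |A x * x - A y * y| ≤ L * |x - y|

/-- derivative of `A(g) g^2` -/
theorem hasDerivAt_pow_comp {A : ℝ → ℝ} {g : ℝ → ℝ} {y D q : ℝ} (hA : Nice A q)
    (h : HasDerivAt g D y) :
    HasDerivAt (fun t => A (g t) * (g t)^2) ((q+2) * A (g y) * g y * D) y :=
  (hA.der (g y)).comp y h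

/-- Interior lemma. -/
theorem interior_false (A : ℝ → ℝ) (a c q : ℝ) (hA : Nice A q) (g dg ddg : ℝ → ℝ) (ha : 1/2 < a) (ha1 : a < 1) (hq : q = 2/a)
    (hcq : c^q = a*(1+a))
    (hg : ∀ y, HasDerivAt g (dg y) y) (hdg : ∀ y, HasDerivAt dg (ddg y) y)
    (hode : ∀ y, 0 < y →
      (1 - y^2) * ddg y + (2 / y - 2*(1+a)*y) * dg y - a*(1+a)*g y + A (g y) * g y = 0)
    (h0 : 0 < g 1) (h1 : g 1 < c) : False := by
  have hqpos : 0 < q := by rw [hq]; positivity
  set μ : ℝ := 1/(1+2*a) with hμ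
  have hμ0 : 0 < μ := by positivity
  have hμ1 : 2*μ < 1 := by
    rw [hμ, ← mul_div_assoc, div_lt_one (by linarith)]; linarith
  have hμa : μ < a := by
    rw [hμ, div_lt_iff₀ (by linarith)]; nlinarith
  have hgc : Continuous g := continuous_iff_continuousAt.2 fun y => (hg y).continuousAt
  have hdgc : Continuous dg := continuous_iff_continuousAt.2 fun y => (hdg y).continuousAt
  -- the functional
  set X : ℝ → ℝ := fun y => -(1/2)*y^2*(1-y^2)*(dg y)^2 - y*(1-μ-a*y^2)*g y*dg y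
    + (a^2/2)*y^2*(g y)^2 - (a/(2*(1+a)))*y^2*(A (g y) * (g y)^2) with hX
  set Z : ℝ → ℝ := fun y => y^(2*μ) * (1-y^2)^(a-μ) * X y with hZ
  have hXd : ∀ y, HasDerivAt X (-y*(1-y^2)*(dg y)^2 + y^3*(dg y)^2 - y^2*(1-y^2)*(dg y)*(ddg y)
        - (1-μ-3*a*y^2)*(g y)*(dg y) - y*(1-μ-a*y^2)*(dg y)^2
        - y*(1-μ-a*y^2)*(g y)*(ddg y) + a^2*y*(g y)^2 + a^2*y^2*(g y)*(dg y)
        - (a/(2*(1+a)))*(2*y*(A (g y)*(g y)^2) + y^2*((q+2)*A (g y)*(g y)*(dg y)))) y := by
    intro y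
    have e1 := hasDerivAt_pow_comp hA (hg y)
    have e2 := hdg y
    have e3 := hg y
    have i1 : HasDerivAt (fun y : ℝ => y) 1 y := hasDerivAt_id y
    have i2 : HasDerivAt (fun y : ℝ => y^2) (2*y) y := by simpa using hasDerivAt_pow 2 y
    have i3 : HasDerivAt (fun y : ℝ => 1 - y^2) (-(2*y)) y := by simpa using i2.const_sub 1
    have i4 : HasDerivAt (fun y : ℝ => (dg y)^2) (2*dg y*ddg y) y := by
      simpa using e2.fun_pow 2
    have i5 : HasDerivAt (fun y : ℝ => (g y)^2) (2*g y*dg y) y := by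
      simpa using e3.fun_pow 2
    have t1 : HasDerivAt (fun y : ℝ => -(1/2)*y^2*(1-y^2)*(dg y)^2)
      ((-(1/2)*(2*y)*(1-y^2) + -(1/2)*y^2*(-(2*y)))*(dg y)^2
        + -(1/2)*y^2*(1-y^2)*(2*dg y*ddg y)) y :=
      ((i2.const_mul (-(1/2))).mul i3).mul i4
    have i6 : HasDerivAt (fun y : ℝ => 1-μ-a*y^2) (-(a*(2*y))) y := by
      simpa using (i2.const_mul a).const_sub (1-μ)
    have t2 : HasDerivAt (fun y : ℝ => y*(1-μ-a*y^2)*g y*dg y)
      (((1*(1-μ-a*y^2) + y*(-(a*(2*y))))*g y + y*(1-μ-a*y^2)*dg y)*dg y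
        + y*(1-μ-a*y^2)*g y*ddg y) y :=
      ((i1.mul i6).mul e3).mul e2
    have t3 : HasDerivAt (fun y : ℝ => (a^2/2)*y^2*(g y)^2)
      ((a^2/2)*(2*y)*(g y)^2 + (a^2/2)*y^2*(2*g y*dg y)) y :=
      (i2.const_mul (a^2/2)).mul i5
    have t4 : HasDerivAt (fun y : ℝ => (a/(2*(1+a)))*y^2*(A (g y) * (g y)^2))
      ((a/(2*(1+a)))*(2*y)*(A (g y) * (g y)^2) + (a/(2*(1+a)))*y^2*((q+2) * A (g y) * g y * dg y)) y :=
      (i2.const_mul (a/(2*(1+a)))).mul e1
    have := ((t1.sub t2).add t3).sub t4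
    refine this.congr_deriv ?_
    ring
  have hZd : ∀ y, 0 < y → y < 1 → HasDerivAt Z
      (y^(2*μ) * (1-y^2)^(a-μ) * ((1-μ)*(1-2*μ)*(g y)*(dg y)/(1-y^2))) y := by
    intro y hy0 hy1
    have hy2 : 0 < 1 - y^2 := by nlinarith
    have j1 : HasDerivAt (fun y : ℝ => y^(2*μ)) (1 * (2*μ) * y^(2*μ-1)) y :=
      (hasDerivAt_id y).rpow_const (Or.inl hy0.ne')
    have i2 : HasDerivAt (fun y : ℝ => y^2) (2*y) y := by simpa using hasDerivAt_pow 2 y
    have i3 : HasDerivAt (fun y : ℝ => 1 - y^2) (-(2*y)) y := by simpa using i2.const_sub 1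
    have j2 : HasDerivAt (fun y : ℝ => (1-y^2)^(a-μ)) (-(2*y) * (a-μ) * (1-y^2)^(a-μ-1)) y :=
      i3.rpow_const (Or.inl hy2.ne')
    have := (j1.mul j2).mul (hXd y)
    refine this.congr_deriv ?_
    have r1 : y^(2*μ-1) = y^(2*μ)/y := by rw [Real.rpow_sub hy0, Real.rpow_one]
    have r2 : (1-y^2)^(a-μ-1) = (1-y^2)^(a-μ)/(1-y^2) := by rw [Real.rpow_sub hy2, Real.rpow_one]
    have key := key_identity a y (g y) (dg y) (ddg y) (A (g y)) μ q ha hμ hq hy0 hy1 (hode y hy0)
    rw [← key, r1, r2]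
    simp only [hX, Pi.mul_apply]
    field_simp
    ring
  have hZc : Continuous Z := by
    have c1 : Continuous (fun y : ℝ => y^(2*μ)) := Real.continuous_rpow_const (by linarith)
    have c2 : Continuous (fun y : ℝ => (1-y^2)^(a-μ)) :=
      (Real.continuous_rpow_const (by linarith)).comp (by fun_prop)
    have c3 : Continuous X := continuous_iff_continuousAt.2 fun y => (hXd y).continuousAt
    exact (c1.mul c2).mul c3
  have hZ0 : Z 0 = 0 := by
    simp only [hZ]
    rw [Real.zero_rpow (by linarith)]; ring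
  have hZ1 : Z 1 = 0 := by
    simp only [hZ]
    have : (1:ℝ) - 1^2 = 0 := by norm_num
    rw [this, Real.zero_rpow (by linarith)]; ring
  -- derivative at one
  have hd1 : dg 1 < 0 := by
    have h := hode 1 one_pos
    have hpow : A (g 1) < a*(1+a) := by
      rw [← hcq, hA.pos _ h0]
      exact Real.rpow_lt_rpow h0.le h1 hqpos
    nlinarith
  -- the last point where dg ≥ 0
  set T : Set ℝ := {y | y ∈ Set.Icc (0:ℝ) 1 ∧ (y = 0 ∨ 0 ≤ dg y)} with hT
  have hTc : IsCompact T := by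
    have : T = Set.Icc (0:ℝ) 1 ∩ ({0} ∪ {y | 0 ≤ dg y}) := by
      ext y; simp [hT, Set.mem_inter_iff]
    rw [this]
    apply isCompact_Icc.inter_right
    exact isClosed_singleton.union (isClosed_le continuous_const hdgc)
  have hT0 : (0:ℝ) ∈ T := ⟨⟨le_rfl, zero_le_one⟩, Or.inl rfl⟩
  obtain ⟨y0, hy0T, hy0max⟩ := hTc.exists_isGreatest ⟨0, hT0⟩
  have hy0nn : 0 ≤ y0 := hy0T.1.1
  have hy01 : y0 < 1 := by
    rcases lt_or_eq_of_le hy0T.1.2 with h | h
    · exact h
    · rcases hy0T.2 with h' | h'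
      · linarith
      · rw [h] at h'; linarith
  have hneg : ∀ y, y0 < y → y ≤ 1 → dg y < 0 := by
    intro y hy hy'
    by_contra hcon
    have : y ∈ T := ⟨⟨by linarith, hy'⟩, Or.inr (not_lt.1 hcon)⟩
    exact absurd (hy0max this) (not_le.2 hy)
  -- g is decreasing on [y0, 1]
  have hganti : StrictAntiOn g (Set.Icc y0 1) := by
    apply strictAntiOn_of_deriv_neg (convex_Icc _ _) hgc.continuousOn
    intro y hy
    rw [interior_Icc] at hy
    rw [(hg y).deriv]
    exact hneg y hy.1 hy.2.le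
  have hgpos : ∀ y, y0 ≤ y → y ≤ 1 → g 1 ≤ g y := by
    intro y hy hy'
    exact hganti.antitoneOn ⟨hy, hy'⟩ ⟨hy01.le, le_rfl⟩ hy'
  have hZanti : StrictAntiOn Z (Set.Icc y0 1) := by
    apply strictAntiOn_of_deriv_neg (convex_Icc _ _) hZc.continuousOn
    intro y hy
    rw [interior_Icc] at hy
    have hy0' : 0 < y := by linarith [hy.1]
    rw [(hZd y hy0' hy.2).deriv]
    have hy2 : 0 < 1 - y^2 := by nlinarith [hy.2]
    have p1 : 0 < y^(2*μ) := Real.rpow_pos_of_pos hy0' _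
    have p2 : 0 < (1-y^2)^(a-μ) := Real.rpow_pos_of_pos hy2 _
    have p3 : 0 < g y := by linarith [hgpos y hy.1.le hy.2.le]
    have p4 : dg y < 0 := hneg y hy.1 hy.2.le
    have p5 : (1-μ)*(1-2*μ)*(g y)*(dg y) < 0 := by
      have : 0 < (1-μ)*(1-2*μ)*(g y) := by
        apply mul_pos (mul_pos (by linarith) (by linarith)) p3
      exact mul_neg_of_pos_of_neg this p4
    exact mul_neg_of_pos_of_neg (mul_pos p1 p2) (div_neg_of_neg_of_pos p5 hy2)
  have hZpos : 0 < Z y0 := by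
    have := hZanti ⟨le_rfl, hy01.le⟩ ⟨hy01.le, le_rfl⟩ hy01
    rw [hZ1] at this
    exact this
  rcases eq_or_lt_of_le hy0nn with h | hy0pos
  · rw [← h, hZ0] at hZpos
    exact lt_irrefl _ hZpos
  · -- dg y0 = 0
    have hdge : 0 ≤ dg y0 := by
      rcases hy0T.2 with h' | h'
      · linarith
      · exact h'
    have hdle : dg y0 ≤ 0 := by
      have : Filter.Tendsto dg (nhdsWithin y0 (Set.Ioi y0)) (nhds (dg y0)) :=
        hdgc.continuousAt.tendsto.mono_left nhdsWithin_le_nhds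
      apply le_of_tendsto this
      filter_upwards [Ioo_mem_nhdsGT hy01] with y hy
      exact (hneg y hy.1 hy.2.le).le
    have hd0 : dg y0 = 0 := le_antisymm hdle hdge
    -- ddg y0 ≤ 0
    have hdd : ddg y0 ≤ 0 := by
      have := (hdg y0)
      have hs := hasDerivAt_iff_tendsto_slope.1 this
      have hs' : Filter.Tendsto (slope dg y0) (nhdsWithin y0 (Set.Ioi y0)) (nhds (ddg y0)) :=
        hs.mono_left (nhdsWithin_mono _ (fun y hy => ne_of_gt hy))
      apply le_of_tendsto hs'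
      filter_upwards [Ioo_mem_nhdsGT hy01] with y hy
      rw [slope_def_field, hd0, sub_zero]
      apply div_nonpos_of_nonpos_of_nonneg
      · exact (hneg y hy.1 hy.2.le).le
      · linarith [hy.1]
    have hgy0 : 0 < g y0 := by linarith [hgpos y0 le_rfl hy01.le]
    have hy02 : 0 < 1 - y0^2 := by nlinarith
    have hge : a*(1+a) ≤ A (g y0) := by
      have h := hode y0 hy0pos
      rw [hd0] at h
      by_contra hcon
      push Not at hcon
      nlinarith [mul_nonneg hy02.le (neg_nonneg.2 hdd)]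
    have : Z y0 ≤ 0 := by
      simp only [hZ, hX, hd0]
      have p1 : 0 < y0^(2*μ) := Real.rpow_pos_of_pos hy0pos _
      have p2 : 0 < (1-y0^2)^(a-μ) := Real.rpow_pos_of_pos hy02 _
      apply mul_nonpos_of_nonneg_of_nonpos (mul_pos p1 p2).le
      have e : -(1/2)*y0^2*(1-y0^2)*(0:ℝ)^2 - y0*(1-μ-a*y0^2)*g y0*0
        + (a^2/2)*y0^2*(g y0)^2 - (a/(2*(1+a)))*y0^2*(A (g y0) * (g y0)^2)
        = (a/(2*(1+a)))*y0^2*(g y0)^2*(a*(1+a) - A (g y0)) := by
        field_simp
        ring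
      rw [e]
      apply mul_nonpos_of_nonneg_of_nonpos
      · positivity
      · linarith
    linarith

/-- interior, the case `g 1 = 0` -/
theorem interior_zero (A : ℝ → ℝ) (a q : ℝ) (hA : Nice A q) (g dg ddg : ℝ → ℝ) (ha : 1/2 < a) (hq : q = 2/a)
    (hg : ∀ y, HasDerivAt g (dg y) y) (hdg : ∀ y, HasDerivAt dg (ddg y) y)
    (hode : ∀ y, 0 < y →
      (1 - y^2) * ddg y + (2 / y - 2*(1+a)*y) * dg y - a*(1+a)*g y + A (g y) * g y = 0)
    (h0 : g 1 = 0) : ∀ y, 0 < y → y ≤ 1 → g y = 0 := by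
  have hqpos : 0 < q := by rw [hq]; positivity
  have hgc : Continuous g := continuous_iff_continuousAt.2 fun y => (hg y).continuousAt
  have hdgc : Continuous dg := continuous_iff_continuousAt.2 fun y => (hdg y).continuousAt
  set X : ℝ → ℝ := fun y => (1/2)*(1-y^2)*(a*g y+y*dg y)^2 + (a/(2*(1+a)))*y^2* (A (g y) * (g y)^2)
    - (1/2)*a*(1-a)*(g y)^2 with hX
  set Z : ℝ → ℝ := fun y => y^(2*a) * X y with hZ
  have hXd : ∀ y, HasDerivAt X (-y*(a*g y+y*dg y)^2 + (1-y^2)*(a*g y+y*dg y)*((1+a)*dg y+y*ddg y)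
        + (a/(2*(1+a)))*(2*y*(A (g y)*(g y)^2) + y^2*((q+2)* A (g y)*g y*dg y)) - a*(1-a)*g y*dg y) y := by
    intro y
    have e1 := hasDerivAt_pow_comp hA (hg y)
    have e2 := hdg y
    have e3 := hg y
    have i1 : HasDerivAt (fun y : ℝ => y) 1 y := hasDerivAt_id y
    have i2 : HasDerivAt (fun y : ℝ => y^2) (2*y) y := by simpa using hasDerivAt_pow 2 y
    have i3 : HasDerivAt (fun y : ℝ => 1 - y^2) (-(2*y)) y := by simpa using i2.const_sub 1
    have i5 : HasDerivAt (fun y : ℝ => (g y)^2) (2*g y*dg y) y := by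
      simpa using e3.fun_pow 2
    have i7 : HasDerivAt (fun y : ℝ => a*g y+y*dg y) (a*dg y + (1*dg y + y*ddg y)) y :=
      (e3.const_mul a).add (i1.mul e2)
    have i8 : HasDerivAt (fun y : ℝ => (a*g y+y*dg y)^2)
      (2*(a*g y+y*dg y)*(a*dg y + (1*dg y + y*ddg y))) y := by
      simpa using i7.fun_pow 2
    have t1 : HasDerivAt (fun y : ℝ => (1/2)*(1-y^2)*(a*g y+y*dg y)^2)
      ((1/2)*(-(2*y))*(a*g y+y*dg y)^2
        + (1/2)*(1-y^2)*(2*(a*g y+y*dg y)*(a*dg y + (1*dg y + y*ddg y)))) y :=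
      (i3.const_mul (1/2)).mul i8
    have t4 : HasDerivAt (fun y : ℝ => (a/(2*(1+a)))*y^2* (A (g y) * (g y)^2))
      ((a/(2*(1+a)))*(2*y)* (A (g y) * (g y)^2) + (a/(2*(1+a)))*y^2*((q+2) * A (g y) * g y * dg y)) y :=
      (i2.const_mul (a/(2*(1+a)))).mul e1
    have t5 : HasDerivAt (fun y : ℝ => (1/2)*a*(1-a)*(g y)^2) ((1/2)*a*(1-a)*(2*g y*dg y)) y :=
      i5.const_mul _
    have := (t1.add t4).sub t5
    refine this.congr_deriv ?_
    ring
  have hZd : ∀ y, 0 < y → y < 1 → HasDerivAt Z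
      (y^(2*a) * ((2*a-1)*(a*g y+y*dg y)^2/y)) y := by
    intro y hy0 hy1
    have j1 : HasDerivAt (fun y : ℝ => y^(2*a)) (1 * (2*a) * y^(2*a-1)) y :=
      (hasDerivAt_id y).rpow_const (Or.inl hy0.ne')
    have := j1.mul (hXd y)
    refine this.congr_deriv ?_
    have r1 : y^(2*a-1) = y^(2*a)/y := by rw [Real.rpow_sub hy0, Real.rpow_one]
    have key := energy_identity a y (g y) (dg y) (ddg y) (A (g y)) q ha hq hy0 hy1 (hode y hy0)
    rw [← key, r1]
    simp only [hX]
    ring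
  have hZc : Continuous Z := by
    have c1 : Continuous (fun y : ℝ => y^(2*a)) := Real.continuous_rpow_const (by linarith)
    have c3 : Continuous X := continuous_iff_continuousAt.2 fun y => (hXd y).continuousAt
    exact c1.mul c3
  have hZ0 : Z 0 = 0 := by
    simp only [hZ]
    rw [Real.zero_rpow (by linarith)]; ring
  have hZ1 : Z 1 = 0 := by
    simp only [hZ, hX, h0]
    norm_num
  have hmono : MonotoneOn Z (Set.Icc 0 1) := by
    apply monotoneOn_of_deriv_nonneg (convex_Icc _ _) hZc.continuousOn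
    · intro y hy
      rw [interior_Icc] at hy
      exact (hZd y hy.1 hy.2).differentiableAt.differentiableWithinAt
    · intro y hy
      rw [interior_Icc] at hy
      rw [(hZd y hy.1 hy.2).deriv]
      have p1 : 0 < y^(2*a) := Real.rpow_pos_of_pos hy.1 _
      have : 0 < 2*a-1 := by linarith
      have := hy.1
      positivity
  have hZz : ∀ y, 0 ≤ y → y ≤ 1 → Z y = 0 := by
    intro y h h'
    apply le_antisymm
    · rw [← hZ1]; exact hmono ⟨h, h'⟩ ⟨zero_le_one, le_rfl⟩ h'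
    · rw [← hZ0]; exact hmono ⟨le_rfl, zero_le_one⟩ ⟨h, h'⟩ h
  have hlin : ∀ y, 0 < y → y < 1 → a*g y + y*dg y = 0 := by
    intro y hy0 hy1
    have h1 := hZd y hy0 hy1
    have h2 : HasDerivAt Z 0 y := by
      have : Z =ᶠ[nhds y] fun _ => 0 := by
        filter_upwards [Ioo_mem_nhds hy0 hy1] with t ht
        exact hZz t ht.1.le ht.2.le
      exact (hasDerivAt_const y (0:ℝ)).congr_of_eventuallyEq this
    have h3 := h1.unique h2
    have p1 : 0 < y^(2*a) := Real.rpow_pos_of_pos hy0 _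
    have p2 : 0 < 2*a-1 := by linarith
    have h4 : (2*a-1)*(a*g y+y*dg y)^2/y = 0 := by
      rcases mul_eq_zero.1 h3 with h | h
      · exact absurd h p1.ne'
      · exact h
    have h5 : (a*g y+y*dg y)^2 = 0 := by
      rcases div_eq_zero_iff.1 h4 with h | h
      · rcases mul_eq_zero.1 h with h | h
        · linarith
        · exact h
      · linarith
    exact pow_eq_zero_iff (two_ne_zero) |>.1 h5
  -- y^a g constant
  set H : ℝ → ℝ := fun y => y^a * g y with hH
  have hHc : Continuous H := (Real.continuous_rpow_const (by linarith)).mul hgc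
  have hHd : ∀ y, 0 < y → y < 1 → HasDerivAt H 0 y := by
    intro y hy0 hy1
    have j1 : HasDerivAt (fun y : ℝ => y^a) (1 * a * y^(a-1)) y :=
      (hasDerivAt_id y).rpow_const (Or.inl hy0.ne')
    have := j1.mul (hg y)
    refine this.congr_deriv ?_
    have r1 : y^(a-1) = y^a/y := by rw [Real.rpow_sub hy0, Real.rpow_one]
    rw [r1]
    have h := hlin y hy0 hy1
    field_simp
    linear_combination (y^a) * h
  have hHanti : AntitoneOn H (Set.Icc 0 1) := by
    apply antitoneOn_of_deriv_nonpos (convex_Icc _ _) hHc.continuousOn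
    · intro y hy
      rw [interior_Icc] at hy
      exact (hHd y hy.1 hy.2).differentiableAt.differentiableWithinAt
    · intro y hy
      rw [interior_Icc] at hy
      rw [(hHd y hy.1 hy.2).deriv]
  have hHmono : MonotoneOn H (Set.Icc 0 1) := by
    apply monotoneOn_of_deriv_nonneg (convex_Icc _ _) hHc.continuousOn
    · intro y hy
      rw [interior_Icc] at hy
      exact (hHd y hy.1 hy.2).differentiableAt.differentiableWithinAt
    · intro y hy
      rw [interior_Icc] at hy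
      rw [(hHd y hy.1 hy.2).deriv]
  intro y hy0 hy1
  have hHy : H y = H 1 := le_antisymm
    (hHmono ⟨hy0.le, hy1⟩ ⟨zero_le_one, le_rfl⟩ hy1)
    (hHanti ⟨hy0.le, hy1⟩ ⟨zero_le_one, le_rfl⟩ hy1)
  have hH1 : H 1 = 0 := by simp [hH, h0]
  rw [hH1] at hHy
  have p1 : 0 < y^a := Real.rpow_pos_of_pos hy0 _
  rcases mul_eq_zero.1 hHy with h | h
  · exact absurd h p1.ne'
  · exact h

/-- Exterior uniqueness at the light cone. -/
theorem exterior_unique (a K Y : ℝ) (d dd ddd : ℝ → ℝ) (ha : 1/2 < a)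
    (hd : ∀ y, HasDerivAt d (dd y) y) (hdd : ∀ y, HasDerivAt dd (ddd y) y)
    (hK : ∀ y, 1 ≤ y → y ≤ Y →
      |(1 - y^2) * ddd y + (2 / y - 2*(1+a)*y) * dd y| ≤ K * |d y|)
    (hK0 : 0 ≤ K) (h0 : d 1 = 0) : ∀ y, 1 ≤ y → y ≤ Y → d y = 0 := by
  set C : ℝ := (K+1)^2/(2*(2*a-1)) with hC
  set e : ℝ → ℝ := fun y => (1/2)*(y^2-1)*(dd y)^2 + (1/2)*(d y)^2 with he
  have hed : ∀ y, HasDerivAt e (y*(dd y)^2 + (y^2-1)*(dd y)*(ddd y) + d y*dd y) y := by
    intro y
    have i2 : HasDerivAt (fun y : ℝ => y^2) (2*y) y := by simpa using hasDerivAt_pow 2 y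
    have i3 : HasDerivAt (fun y : ℝ => y^2 - 1) (2*y) y := by simpa using i2.sub_const 1
    have i4 : HasDerivAt (fun y : ℝ => (dd y)^2) (2*dd y*ddd y) y := by
      simpa using (hdd y).fun_pow 2
    have i5 : HasDerivAt (fun y : ℝ => (d y)^2) (2*d y*dd y) y := by
      simpa using (hd y).fun_pow 2
    have := ((i3.const_mul (1/2)).mul i4).add (i5.const_mul (1/2))
    refine this.congr_deriv ?_
    ring
  have hle : ∀ y, 1 ≤ y → y ≤ Y → y*(dd y)^2 + (y^2-1)*(dd y)*(ddd y) + d y*dd y ≤ C * e y := by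
    intro y h1 h2
    have hR := hK y h1 h2
    set R := (1 - y^2) * ddd y + (2 / y - 2*(1+a)*y) * dd y with hRdef
    have hy0 : 0 < y := by linarith
    have e1 : y*(dd y)^2 + (y^2-1)*(dd y)*(ddd y) + d y*dd y
        = (2/y - (1+2*a)*y)*(dd y)^2 + (d y - R)*dd y := by
      rw [hRdef]; ring
    rw [e1]
    have e2 : 2/y - (1+2*a)*y ≤ -(2*a-1) := by
      have : 2/y ≤ 2*y := by
        rw [div_le_iff₀ hy0]; nlinarith
      nlinarith
    have e3 : (2/y - (1+2*a)*y)*(dd y)^2 ≤ -(2*a-1)*(dd y)^2 :=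
      mul_le_mul_of_nonneg_right e2 (sq_nonneg _)
    have e4 : (d y - R)*dd y ≤ (K+1)* |d y| * |dd y| := by
      calc (d y - R)*dd y ≤ |(d y - R)*dd y| := le_abs_self _
        _ = |d y - R| * |dd y| := abs_mul _ _
        _ ≤ (|d y| + |R|)* |dd y| := by gcongr; exact abs_sub _ _
        _ ≤ (|d y| + K* |d y|)* |dd y| := by gcongr
        _ = (K+1)* |d y| * |dd y| := by ring
    have hpos : 0 < 2*a-1 := by linarith
    have e5 : (K+1)* |d y| * |dd y| ≤ (2*a-1)*(dd y)^2 + (K+1)^2/(4*(2*a-1))*(d y)^2 := by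
      have hs : 0 ≤ (2*(2*a-1)* |dd y| - (K+1)* |d y|)^2/(4*(2*a-1)) := by positivity
      have hs2 : (2*(2*a-1)* |dd y| - (K+1)* |d y|)^2/(4*(2*a-1))
          = (2*a-1)*(dd y)^2 + (K+1)^2/(4*(2*a-1))*(d y)^2 - (K+1)* |d y| * |dd y| := by
        rw [← sq_abs (dd y), ← sq_abs (d y)]
        field_simp
        ring
      linarith
    have e6 : (K+1)^2/(4*(2*a-1))*(d y)^2 ≤ C * e y := by
      have h3 : C * e y = (K+1)^2/(4*(2*a-1))*(d y)^2 + (K+1)^2/(4*(2*a-1))*((y^2-1)*(dd y)^2) := by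
        rw [hC, he]; field_simp; ring
      rw [h3]
      have : 0 ≤ (K+1)^2/(4*(2*a-1))*((y^2-1)*(dd y)^2) := by
        have : 0 ≤ y^2 - 1 := by nlinarith
        positivity
      linarith
    linarith
  set F : ℝ → ℝ := fun y => e y * Real.exp (-C*y) with hF
  have hFd : ∀ y, HasDerivAt F ((y*(dd y)^2 + (y^2-1)*(dd y)*(ddd y) + d y*dd y) * Real.exp (-C*y)
      + e y * (Real.exp (-C*y) * (-C))) y := by
    intro y
    have : HasDerivAt (fun y : ℝ => Real.exp (-C*y)) (Real.exp (-C*y) * (-C)) y := by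
      have h1 : HasDerivAt (fun y : ℝ => -C*y) (-C) y := by
        simpa using (hasDerivAt_id y).const_mul (-C)
      exact h1.exp
    exact (hed y).mul this
  intro y h1 h2
  have hanti : AntitoneOn F (Set.Icc 1 Y) := by
    apply antitoneOn_of_deriv_nonpos (convex_Icc _ _)
    · exact (continuous_iff_continuousAt.2 fun y => (hFd y).continuousAt).continuousOn
    · intro z _
      exact (hFd z).differentiableAt.differentiableWithinAt
    · intro z hz
      rw [interior_Icc] at hz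
      rw [(hFd z).deriv]
      have := hle z hz.1.le hz.2.le
      have hexp := Real.exp_pos (-C*z)
      nlinarith
  have hF1 : F 1 = 0 := by simp [hF, he, h0]
  have hFy : F y ≤ 0 := by
    rw [← hF1]; exact hanti ⟨le_rfl, h1.trans h2⟩ ⟨h1, h2⟩ h1
  have hey : e y ≤ 0 := by
    by_contra hcon
    push Not at hcon
    have := mul_pos hcon (Real.exp_pos (-C*y))
    exact absurd hFy (not_le.2 this)
  have hd2 : (d y)^2 ≤ 0 := by
    have : 0 ≤ (1/2)*(y^2-1)*(dd y)^2 := by
      have : 0 ≤ y^2 - 1 := by nlinarith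
      positivity
    simp only [he] at hey
    linarith
  exact pow_eq_zero_iff (two_ne_zero) |>.1 (le_antisymm hd2 (sq_nonneg _))

theorem hasDerivAt_nl (q t : ℝ) (hq : 2 < q) :
    HasDerivAt (fun t : ℝ => |t|^q * t) ((q+1) * |t|^q) t := by
  have h1 := (hasDerivAt_abs_rpow t (p := q) (by linarith)).mul (hasDerivAt_id t)
  refine h1.congr_deriv ?_
  have : |t|^q = |t|^(q-2) * t^2 := by
    have h2 : q = (q-2) + 2 := by ring
    conv_lhs => rw [h2]
    rw [Real.rpow_add_of_nonneg (abs_nonneg t) (by linarith) (by norm_num)]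
    congr 1
    norm_num
  simp only [id]
  rw [this]
  ring

theorem nl_lipschitz (q M : ℝ) (hq : 2 < q) (x y : ℝ) (hx : |x| ≤ M) (hy : |y| ≤ M) :
    |(|x|^q * x) - (|y|^q * y)| ≤ ((q+1) * M^q) * |x - y| := by
  have hM : 0 ≤ M := (abs_nonneg x).trans hx
  have := Convex.norm_image_sub_le_of_norm_hasDerivWithin_le (f := fun t : ℝ => |t|^q * t)
    (f' := fun t : ℝ => (q+1) * |t|^q) (s := Set.Icc (-M) M) (x := y) (y := x) (C := (q+1) * M^q)
    (fun t _ => (hasDerivAt_nl q t hq).hasDerivWithinAt)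
    (by
      intro t ht
      have ht' : |t| ≤ M := abs_le.2 ⟨ht.1, ht.2⟩
      rw [Real.norm_eq_abs, abs_mul, abs_of_pos (by linarith : 0 < q+1),
        abs_of_nonneg (Real.rpow_nonneg (abs_nonneg t) q)]
      gcongr)
    (convex_Icc _ _) (by rw [Set.mem_Icc]; exact abs_le.1 hy) (by rw [Set.mem_Icc]; exact abs_le.1 hx)
  simpa [Real.norm_eq_abs] using this

/-- the reading `|x|^(p-1) x` -/
theorem nice_abs (q : ℝ) (hq : 2 < q) : Nice (fun x => |x|^q) q where
  pos x hx := by rw [abs_of_pos hx]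
  der x := by
    have h1 := hasDerivAt_abs_rpow x (p := q+2) (by linarith)
    have h2 : q + 2 - 2 = q := by ring
    rw [h2] at h1
    have h3 : (fun x : ℝ => |x|^q * x^2) = fun x : ℝ => |x|^(q+2) := by
      funext t
      exact (abs_rpow_add_two t q (by linarith)).symm
    rw [h3]
    exact h1
  lip M hM := ⟨(q+1) * M^q, by
    have : 0 ≤ M^q := Real.rpow_nonneg hM q
    positivity, fun x y hx hy => nl_lipschitz q M hq x y hx hy⟩

/-- the reading `x^4` for `p = 4` -/
theorem nice_cube : Nice (fun x => x^3) 3 where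
  pos x _ := by
    have : (3:ℝ) = ((3:ℕ):ℝ) := by norm_num
    rw [this, Real.rpow_natCast]
  der x := by
    have h1 : HasDerivAt (fun x : ℝ => x^5) ((5:ℕ) * x^4) x := by
      simpa using hasDerivAt_pow 5 x
    have h3 : (fun x : ℝ => x^3 * x^2) = fun x : ℝ => x^5 := by
      funext t
      ring
    rw [h3]
    refine h1.congr_deriv ?_
    push_cast
    ring
  lip M hM := ⟨4 * M^3, by positivity, fun x y hx hy => by
    have e : x^3 * x - y^3 * y = (x + y) * (x^2 + y^2) * (x - y) := by ring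
    have h1 : |x + y| ≤ 2 * M := (abs_add_le x y).trans (by linarith)
    have hx2 : x^2 ≤ M^2 := sq_le_sq' (abs_le.1 hx).1 (abs_le.1 hx).2
    have hy2 : y^2 ≤ M^2 := sq_le_sq' (abs_le.1 hy).1 (abs_le.1 hy).2
    have h2 : |x^2 + y^2| ≤ 2 * M^2 := by
      rw [abs_of_nonneg (by positivity)]
      linarith
    show |x^3 * x - y^3 * y| ≤ 4 * M^3 * |x - y|
    rw [e, abs_mul, abs_mul]
    have h3 : |x + y| * |x^2 + y^2| ≤ (2 * M) * (2 * M^2) :=
      mul_le_mul h1 h2 (abs_nonneg _) (by linarith)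
    have h4 : (2 * M) * (2 * M^2) = 4 * M^3 := by ring
    rw [h4] at h3
    exact mul_le_mul_of_nonneg_right h3 (abs_nonneg _)⟩

/-- A solution that agrees with a constant solution on the light cone equals it outside. -/
theorem exterior_const (A : ℝ → ℝ) (a q c : ℝ) (hA : Nice A q) (g dg ddg : ℝ → ℝ) (ha : 1/2 < a)
    (hcq : A c * c = a*(1+a) * c)
    (hg : ∀ y, HasDerivAt g (dg y) y) (hdg : ∀ y, HasDerivAt dg (ddg y) y)
    (hode : ∀ y, 0 < y →
      (1 - y^2) * ddg y + (2 / y - 2*(1+a)*y) * dg y - a*(1+a)*g y + A (g y) * g y = 0)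
    (h1 : g 1 = c) : ∀ y, 1 ≤ y → g y = c := by
  have hgc : Continuous g := continuous_iff_continuousAt.2 fun y => (hg y).continuousAt
  intro Y hY
  obtain ⟨M, hM⟩ := (isCompact_Icc (a := (1:ℝ)) (b := Y)).exists_bound_of_continuousOn hgc.continuousOn
  simp only [Real.norm_eq_abs] at hM
  have hMc : |c| ≤ M := by rw [← h1]; exact hM 1 ⟨le_rfl, hY⟩
  have hM0 : 0 ≤ M := (abs_nonneg c).trans hMc
  obtain ⟨L, hL0, hL⟩ := hA.lip M hM0
  have h := exterior_unique a (L + a*(1+a)) Y (fun y => g y - c) dg ddg ha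
    (fun y => (hg y).sub_const c) hdg ?_ ?_ (by simp [h1]) Y hY le_rfl
  · have : g Y - c = 0 := h
    linarith
  · intro y hy1 hy2
    have hy0 : 0 < y := by linarith
    have e : (1 - y^2) * ddg y + (2 / y - 2*(1+a)*y) * dg y
        = a*(1+a)*(g y - c) - ((A (g y) * g y) - (A c * c)) := by
      have := hode y hy0
      rw [hcq]
      linarith
    rw [e]
    have hl := hL (g y) c (hM y ⟨hy1, hy2⟩) hMc
    calc |a*(1+a)*(g y - c) - ((A (g y) * g y) - (A c * c))|
        ≤ |a*(1+a)*(g y - c)| + |(A (g y) * g y) - (A c * c)| := abs_sub _ _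
      _ ≤ a*(1+a) * |g y - c| + L * |g y - c| := by
          rw [abs_mul, abs_of_pos (by nlinarith : 0 < a*(1+a))]
          gcongr
      _ = (L + a*(1+a)) * |g y - c| := by ring
  · have : 0 ≤ a*(1+a) := by nlinarith
    positivity

/-- Outside the light cone, data above the constant solution cannot come down. -/
theorem exterior_false (A : ℝ → ℝ) (a q c Y : ℝ) (hA : Nice A q) (g dg ddg : ℝ → ℝ) (ha : 1/2 < a) (ha1 : a < 1) (hq : q = 2/a)
    (hc : 0 < c) (hcq : c^q = a*(1+a))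
    (hg : ∀ y, HasDerivAt g (dg y) y) (hdg : ∀ y, HasDerivAt dg (ddg y) y)
    (hode : ∀ y, 0 < y →
      (1 - y^2) * ddg y + (2 / y - 2*(1+a)*y) * dg y - a*(1+a)*g y + A (g y) * g y = 0)
    (h1 : c ≤ g 1) (hY : 1 < Y) (hgY : g Y < c) : False := by
  have hqpos : 0 < q := by rw [hq]; positivity
  have hgc : Continuous g := continuous_iff_continuousAt.2 fun y => (hg y).continuousAt
  have hdgc : Continuous dg := continuous_iff_continuousAt.2 fun y => (hdg y).continuousAt
  rcases eq_or_lt_of_le h1 with h1 | h1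
  · have := exterior_const A a q c hA g dg ddg ha (by rw [hA.pos _ hc, hcq]) hg hdg hode h1.symm
      Y hY.le
    linarith
  obtain ⟨y1, hy1, hmax⟩ := (isCompact_Icc (a := (1:ℝ)) (b := Y)).exists_isMaxOn
    ⟨1, ⟨le_rfl, hY.le⟩⟩ hgc.continuousOn
  have hgy1 : c < g y1 := lt_of_lt_of_le h1 (hmax ⟨le_rfl, hY.le⟩)
  have hy1Y : y1 < Y := by
    rcases lt_or_eq_of_le hy1.2 with h | h
    · exact h
    · rw [h] at hgy1; linarith
  have hnl : a*(1+a) < A (g y1) := by
    rw [← hcq, hA.pos _ (hc.trans hgy1)]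
    exact Real.rpow_lt_rpow hc.le hgy1 hqpos
  have hgpos : 0 < g y1 := hc.trans hgy1
  -- there is η with dg > 0 on (y1, y1+η)
  have hev : ∀ᶠ y in nhdsWithin y1 (Set.Ioi y1), 0 < dg y := by
    rcases eq_or_lt_of_le hy1.1 with h | h
    · -- y1 = 1
      have hd : 0 < dg y1 := by
        have := hode y1 (by linarith)
        rw [← h] at this ⊢
        rw [← h] at hnl hgpos
        nlinarith
      exact (hdgc.continuousAt.eventually (lt_mem_nhds hd)).filter_mono nhdsWithin_le_nhds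
    · have hloc : IsLocalMax g y1 := by
        have : Set.Icc 1 Y ∈ nhds y1 := Icc_mem_nhds h hy1Y
        exact hmax.isLocalMax this
      have hd0 : dg y1 = 0 := by
        have := hloc.deriv_eq_zero
        rw [(hg y1).deriv] at this
        exact this
      have hdd : 0 < ddg y1 := by
        have := hode y1 (by linarith)
        rw [hd0] at this
        have hy2 : 0 < y1^2 - 1 := by nlinarith
        by_contra hcon
        push Not at hcon
        nlinarith [mul_nonneg hy2.le (neg_nonneg.2 hcon), mul_pos hgpos (sub_pos.2 hnl)]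
      have hs := hasDerivAt_iff_tendsto_slope.1 (hdg y1)
      have hs' : Filter.Tendsto (slope dg y1) (nhdsWithin y1 (Set.Ioi y1)) (nhds (ddg y1)) :=
        hs.mono_left (nhdsWithin_mono _ (fun y hy => ne_of_gt hy))
      filter_upwards [hs'.eventually (lt_mem_nhds hdd), self_mem_nhdsWithin] with y hy hy'
      rw [slope_def_field, hd0, sub_zero] at hy
      have hpos : 0 < y - y1 := sub_pos.2 hy'
      rcases div_pos_iff.1 hy with h' | h'
      · exact h'.1
      · linarith [h'.2]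
  obtain ⟨y2, hy2, hy2'⟩ := (mem_nhdsGT_iff_exists_Ioo_subset.1 hev)
  have hy2 : y1 < y2 := hy2
  set y3 := min y2 Y with hy3
  have hy13 : y1 < y3 := lt_min hy2 hy1Y
  have hmono : StrictMonoOn g (Set.Icc y1 y3) := by
    apply strictMonoOn_of_deriv_pos (convex_Icc _ _) hgc.continuousOn
    intro y hy
    rw [interior_Icc] at hy
    rw [(hg y).deriv]
    exact hy2' ⟨hy.1, lt_of_lt_of_le hy.2 (min_le_left _ _)⟩
  have hlt := hmono ⟨le_rfl, hy13.le⟩ ⟨hy13.le, le_rfl⟩ hy13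
  have hle := hmax (show y3 ∈ Set.Icc 1 Y from ⟨by linarith [hy1.1], min_le_right _ _⟩)
  have hle' : g y3 ≤ g y1 := hle
  linarith


/-- Negative value at the light cone, for a nonlinearity `A(x) x` with `A ≤ 0` on the negative
half-line: impossible by the maximum principle inside the cone. -/
theorem neg_false (A : ℝ → ℝ) (a : ℝ) (hneg : ∀ x, x < 0 → A x ≤ 0) (g dg ddg : ℝ → ℝ)
    (ha : 1/2 < a)
    (hg : ∀ y, HasDerivAt g (dg y) y) (hdg : ∀ y, HasDerivAt dg (ddg y) y)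
    (hode : ∀ y, 0 < y →
      (1 - y^2) * ddg y + (2 / y - 2*(1+a)*y) * dg y - a*(1+a)*g y + A (g y) * g y = 0)
    (h : g 1 < 0) : False := by
  have hgc : Continuous g := continuous_iff_continuousAt.2 fun y => (hg y).continuousAt
  have hdgc : Continuous dg := continuous_iff_continuousAt.2 fun y => (hdg y).continuousAt
  set Z : ℝ → ℝ := fun y => y^2 * (1-y^2)^a * dg y with hZ
  have hZc : Continuous Z := by
    have c1 : Continuous (fun y : ℝ => y^2) := by fun_prop
    have c2 : Continuous (fun y : ℝ => (1-y^2)^a) :=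
      (Real.continuous_rpow_const (by linarith)).comp (by fun_prop)
    exact (c1.mul c2).mul hdgc
  have hZd : ∀ y, 0 < y → y < 1 → HasDerivAt Z
      (y^2 * (1-y^2)^a / (1-y^2) * (a*(1+a)*g y - A (g y) * g y)) y := by
    intro y hy0 hy1
    have hy2 : 0 < 1 - y^2 := by nlinarith
    have i2 : HasDerivAt (fun y : ℝ => y^2) (2*y) y := by simpa using hasDerivAt_pow 2 y
    have i3 : HasDerivAt (fun y : ℝ => 1 - y^2) (-(2*y)) y := by simpa using i2.const_sub 1
    have j2 : HasDerivAt (fun y : ℝ => (1-y^2)^a) (-(2*y) * a * (1-y^2)^(a-1)) y :=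
      i3.rpow_const (Or.inl hy2.ne')
    have := (i2.mul j2).mul (hdg y)
    refine this.congr_deriv ?_
    have r2 : (1-y^2)^(a-1) = (1-y^2)^a/(1-y^2) := by rw [Real.rpow_sub hy2, Real.rpow_one]
    have e : a*(1+a)*g y - A (g y) * g y
        = (1 - y^2) * ddg y + (2 / y - 2*(1+a)*y) * dg y := by
      linarith [hode y hy0]
    rw [e, r2]
    simp only [Pi.mul_apply]
    field_simp
    ring
  have hZ0 : Z 0 = 0 := by simp [hZ]
  have hZ1 : Z 1 = 0 := by
    simp only [hZ]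
    have : (1:ℝ) - 1^2 = 0 := by norm_num
    rw [this, Real.zero_rpow (by linarith)]; ring
  set T : Set ℝ := {y | y ∈ Set.Icc (0:ℝ) 1 ∧ (y = 0 ∨ 0 ≤ g y)} with hT
  have hTc : IsCompact T := by
    have : T = Set.Icc (0:ℝ) 1 ∩ ({0} ∪ {y | 0 ≤ g y}) := by
      ext y; simp [hT, Set.mem_inter_iff]
    rw [this]
    apply isCompact_Icc.inter_right
    exact isClosed_singleton.union (isClosed_le continuous_const hgc)
  have hT0 : (0:ℝ) ∈ T := ⟨⟨le_rfl, zero_le_one⟩, Or.inl rfl⟩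
  obtain ⟨y0, hy0T, hy0max⟩ := hTc.exists_isGreatest ⟨0, hT0⟩
  have hy0nn : 0 ≤ y0 := hy0T.1.1
  have hy01 : y0 < 1 := by
    rcases lt_or_eq_of_le hy0T.1.2 with h' | h'
    · exact h'
    · rcases hy0T.2 with h'' | h''
      · linarith
      · rw [h'] at h''; linarith
  have hgneg : ∀ y, y0 < y → y ≤ 1 → g y < 0 := by
    intro y hy hy'
    by_contra hcon
    have : y ∈ T := ⟨⟨by linarith, hy'⟩, Or.inr (not_lt.1 hcon)⟩
    exact absurd (hy0max this) (not_le.2 hy)
  have hZanti : StrictAntiOn Z (Set.Icc y0 1) := by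
    apply strictAntiOn_of_deriv_neg (convex_Icc _ _) hZc.continuousOn
    intro y hy
    rw [interior_Icc] at hy
    have hy0' : 0 < y := by linarith [hy.1]
    rw [(hZd y hy0' hy.2).deriv]
    have hy2 : 0 < 1 - y^2 := by nlinarith [hy.2]
    have p2 : 0 < (1-y^2)^a := Real.rpow_pos_of_pos hy2 _
    have p3 : g y < 0 := hgneg y hy.1 hy.2.le
    have p4 : 0 ≤ A (g y) * g y := mul_nonneg_of_nonpos_of_nonpos (hneg _ p3) p3.le
    have p5 : a*(1+a)*g y < 0 := mul_neg_of_pos_of_neg (by nlinarith) p3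
    exact mul_neg_of_pos_of_neg (by positivity) (by linarith)
  have hZpos : ∀ y, y0 ≤ y → y < 1 → 0 < Z y := by
    intro y hy hy'
    have := hZanti ⟨hy, hy'.le⟩ ⟨hy01.le, le_rfl⟩ hy'
    rw [hZ1] at this
    exact this
  rcases eq_or_lt_of_le hy0nn with h' | hy0pos
  · have := hZpos y0 le_rfl hy01
    rw [← h', hZ0] at this
    exact lt_irrefl _ this
  · have hg0 : 0 ≤ g y0 := by
      rcases hy0T.2 with h'' | h''
      · linarith
      · exact h''
    have hgmono : StrictMonoOn g (Set.Icc y0 1) := by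
      apply strictMonoOn_of_deriv_pos (convex_Icc _ _) hgc.continuousOn
      intro y hy
      rw [interior_Icc] at hy
      rw [(hg y).deriv]
      have h1 := hZpos y hy.1.le hy.2
      have hyp : 0 < y := by linarith [hy.1]
      have hy2 : 0 < 1 - y^2 := by nlinarith [hy.2]
      have p2 : 0 < (1-y^2)^a := Real.rpow_pos_of_pos hy2 _
      have p3 : 0 < y^2 * (1-y^2)^a := by positivity
      exact (pos_iff_pos_of_mul_pos h1).1 p3
    have := hgmono ⟨le_rfl, hy01.le⟩ ⟨hy01.le, le_rfl⟩ hy01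
    linarith

/-- A positive value at the light cone is incompatible with decay. -/
theorem pos_false (A : ℝ → ℝ) (a q : ℝ) (hA : Nice A q) (g dg ddg : ℝ → ℝ) (ha : 1/2 < a)
    (ha1 : a < 1) (hq : q = 2/a)
    (hg : ∀ y, HasDerivAt g (dg y) y) (hdg : ∀ y, HasDerivAt dg (ddg y) y)
    (hode : ∀ y, 0 < y →
      (1 - y^2) * ddg y + (2 / y - 2*(1+a)*y) * dg y - a*(1+a)*g y + A (g y) * g y = 0)
    (hdec : Filter.Tendsto g Filter.atTop (nhds 0)) (h : 0 < g 1) : False := by
  have hqpos : 0 < q := by rw [hq]; positivity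
  set c : ℝ := (a*(1+a))^(1/q) with hc
  have haa : 0 < a*(1+a) := by nlinarith
  have hc0 : 0 < c := Real.rpow_pos_of_pos haa _
  have hcq : c^q = a*(1+a) := by
    rw [hc, ← Real.rpow_mul haa.le, one_div, inv_mul_cancel₀ hqpos.ne', Real.rpow_one]
  rcases lt_or_ge (g 1) c with h' | h'
  · exact interior_false A a c q hA g dg ddg ha ha1 hq hcq hg hdg hode h h'
  · obtain ⟨Y, hY1, hY2⟩ := ((hdec.eventually (gt_mem_nhds hc0)).and
      (Filter.eventually_gt_atTop (1:ℝ))).exists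
    exact exterior_false A a q c Y hA g dg ddg ha ha1 hq hc0 hcq hg hdg hode h' hY2 hY1

/-- The statement for functions given on the whole line with their two derivatives, and a
nonlinearity `A(x) x` where `A` is either even or nonpositive on the negative half-line. -/
theorem main_g (A : ℝ → ℝ) (a q : ℝ) (hA : Nice A q)
    (hA2 : (∀ x, A (-x) = A x) ∨ ∀ x, x < 0 → A x ≤ 0)
    (g dg ddg : ℝ → ℝ) (ha : 1/2 < a) (ha1 : a < 1) (hq : q = 2/a)
    (hg : ∀ y, HasDerivAt g (dg y) y) (hdg : ∀ y, HasDerivAt dg (ddg y) y)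
    (hode : ∀ y, 0 < y →
      (1 - y^2) * ddg y + (2 / y - 2*(1+a)*y) * dg y - a*(1+a)*g y + A (g y) * g y = 0)
    (hdec : Filter.Tendsto g Filter.atTop (nhds 0)) : g 1 = 0 := by
  rcases lt_trichotomy (g 1) 0 with h | h | h
  · exfalso
    rcases hA2 with hA2 | hA2
    · have hode' : ∀ y, 0 < y →
        (1 - y^2) * (-ddg y) + (2 / y - 2*(1+a)*y) * (-dg y) - a*(1+a)*(-g y)
          + A (-g y) * (-g y) = 0 := by
        intro y hy
        rw [hA2]
        linear_combination -(hode y hy)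
      exact pos_false A a q hA (fun y => -g y) (fun y => -dg y) (fun y => -ddg y) ha ha1 hq
        (fun y => (hg y).neg) (fun y => (hdg y).neg) hode' (by simpa using hdec.neg)
        (by simpa using h)
    · exact neg_false A a hA2 g dg ddg ha hg hdg hode h
  · exact h
  · exact (pos_false A a q hA g dg ddg ha ha1 hq hg hdg hode hdec h).elim

/-- **No smooth self-similar profile with decay for `3 < p < 5`.**  Let `3 < p < 5` and let
`f x = |x|^(p-1) x`, or `p = 4` and `f x = x^4`.  Every solution `Φ` of the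
profile equation with nonlinearity `f` on `(0, ∞)` for which `x ↦ Φ ‖x‖` is twice continuously
differentiable on `ℝ³` and which is `O(y^(-2/(p-1)))` at infinity vanishes identically. -/
theorem result (p : ℝ) (hp3 : 3 < p) (hp5 : p < 5) (f : ℝ → ℝ)
    (hf : (∀ x : ℝ, f x = |x| ^ (p - 1) * x) ∨ (p = 4 ∧ ∀ x : ℝ, f x = x ^ 4)) (Φ : ℝ → ℝ)
    (hsmooth : ContDiff ℝ 2 (fun x : EuclideanSpace ℝ (Fin 3) => Φ ‖x‖))
    (hode : ∀ y : ℝ, 0 < y →
      (1 - y ^ 2) * deriv (deriv Φ) y + (2 / y - 2 * (p + 1) / (p - 1) * y) * deriv Φ y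
        - 2 * (p + 1) / (p - 1) ^ 2 * Φ y + f (Φ y) = 0)
    (hdecay : Φ =O[Filter.atTop] fun y : ℝ => y ^ (-(2 / (p - 1)))) :
    ∀ y : ℝ, 0 ≤ y → Φ y = 0 := by
  set a : ℝ := 2 / (p - 1) with ha
  have hp1 : 0 < p - 1 := by linarith
  have ha0 : 1/2 < a := by
    rw [ha, lt_div_iff₀ hp1]; linarith
  have ha1 : a < 1 := by
    rw [ha, div_lt_one hp1]; linarith
  have hq : p - 1 = 2 / a := by
    rw [ha]; field_simp
  -- the factor `A`
  obtain ⟨A, hA, hA2, hfA⟩ : ∃ A : ℝ → ℝ, Nice A (p - 1) ∧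
      ((∀ x, A (-x) = A x) ∨ ∀ x, x < 0 → A x ≤ 0) ∧ ∀ x, f x = A x * x := by
    rcases hf with hf | ⟨hp4, hf⟩
    · exact ⟨fun x => |x| ^ (p - 1), nice_abs (p - 1) (by linarith),
        Or.inl fun x => by simp only [abs_neg], hf⟩
    · have e3 : p - 1 = 3 := by rw [hp4]; norm_num
      refine ⟨fun x => x ^ 3, ?_, Or.inr fun x hx => ?_, fun x => ?_⟩
      · rw [e3]; exact nice_cube
      · exact (Odd.pow_neg (by decide) hx).le
      · rw [hf x]; ring
  -- restriction to a line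
  set e : EuclideanSpace ℝ (Fin 3) := EuclideanSpace.single 0 1 with he
  have hen : ‖e‖ = 1 := by simp [he]
  set g : ℝ → ℝ := fun t => Φ |t| with hgdef
  have hgF : g = (fun x : EuclideanSpace ℝ (Fin 3) => Φ ‖x‖) ∘ (fun t : ℝ => t • e) := by
    funext t
    simp [hgdef, norm_smul, hen]
  have hgC : ContDiff ℝ 2 g := by
    rw [hgF]
    exact hsmooth.comp (contDiff_id.smul contDiff_const)
  have hgd : Differentiable ℝ g := hgC.differentiable (by norm_num)
  have hgC1 : ContDiff ℝ 1 (deriv g) := by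
    have h2 : ContDiff ℝ (1 + 1) g := by
      have : (1:WithTop ℕ∞) + 1 = 2 := by norm_num
      rw [this]; exact hgC
    exact (contDiff_succ_iff_deriv.1 h2).2.2
  have hdgd : Differentiable ℝ (deriv g) := hgC1.differentiable (by norm_num)
  have hev : ∀ y : ℝ, 0 < y → g =ᶠ[nhds y] Φ := by
    intro y hy
    filter_upwards [lt_mem_nhds hy] with t ht
    simp [hgdef, abs_of_pos ht]
  have hev1 : ∀ y : ℝ, 0 < y → deriv g y = deriv Φ y := fun y hy => (hev y hy).deriv_eq
  have hev2 : ∀ y : ℝ, 0 < y → deriv (deriv g) y = deriv (deriv Φ) y := by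
    intro y hy
    apply Filter.EventuallyEq.deriv_eq
    filter_upwards [lt_mem_nhds hy] with t ht
    exact hev1 t ht
  have hode' : ∀ y, 0 < y →
      (1 - y^2) * deriv (deriv g) y + (2 / y - 2*(1+a)*y) * deriv g y - a*(1+a)*g y
        + A (g y) * g y = 0 := by
    intro y hy
    have h := hode y hy
    rw [← hev1 y hy, ← hev2 y hy] at h
    have hgy : Φ y = g y := by simp [hgdef, abs_of_pos hy]
    rw [hgy, hfA] at h
    have e1 : 2 * (p + 1) / (p - 1) = 2*(1+a) := by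
      rw [ha]; field_simp; ring
    have e2 : 2 * (p + 1) / (p - 1) ^ 2 = a*(1+a) := by
      rw [ha]; field_simp; ring
    rw [e1, e2] at h
    exact h
  have hdec : Filter.Tendsto g Filter.atTop (nhds 0) := by
    have h0 : Filter.Tendsto (fun y : ℝ => y ^ (-a)) Filter.atTop (nhds 0) :=
      tendsto_rpow_neg_atTop (by linarith)
    have h1 : Filter.Tendsto Φ Filter.atTop (nhds 0) := hdecay.trans_tendsto h0
    apply h1.congr'
    filter_upwards [Filter.eventually_gt_atTop (0:ℝ)] with t ht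
    simp [hgdef, abs_of_pos ht]
  have hg : ∀ y, HasDerivAt g (deriv g y) y := fun y => (hgd y).hasDerivAt
  have hdg : ∀ y, HasDerivAt (deriv g) (deriv (deriv g) y) y := fun y => (hdgd y).hasDerivAt
  have h1 : g 1 = 0 :=
    main_g A a (p-1) hA hA2 g (deriv g) (deriv (deriv g)) ha0 ha1 hq hg hdg hode' hdec
  have hin := interior_zero A a (p-1) hA g (deriv g) (deriv (deriv g)) ha0 hq hg hdg hode' h1
  have hout := exterior_const A a (p-1) 0 hA g (deriv g) (deriv (deriv g)) ha0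
    (by simp) hg hdg hode' h1
  have hpos : ∀ y, 0 < y → g y = 0 := by
    intro y hy
    rcases le_total y 1 with h | h
    · exact hin y hy h
    · exact hout y h
  intro y hy
  have hgy : Φ y = g y := by simp [hgdef, abs_of_nonneg hy]
  rw [hgy]
  rcases eq_or_lt_of_le hy with h | h
  · rw [← h]
    have hc : Continuous g := hgd.continuous
    have ht : Filter.Tendsto g (nhdsWithin 0 (Set.Ioi 0)) (nhds (g 0)) :=
      hc.continuousAt.tendsto.mono_left nhdsWithin_le_nhds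
    have ht' : Filter.Tendsto g (nhdsWithin 0 (Set.Ioi 0)) (nhds 0) := by
      apply tendsto_const_nhds.congr'
      filter_upwards [self_mem_nhdsWithin] with t ht
      exact (hpos t ht).symm
    exact tendsto_nhds_unique ht ht'
  · exact hpos y h

end Pool.Agent.Results.MP_a45a4d_an.NoDecayingProfile
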